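import Mathlib

/-!
# Axial algebras: definitions
-/

set_option linter.unusedSectionVars false

namespace V11196.Axial

/-- A fusion law over a field `K`: a set `carrier` of eigenvalues containing `1`, together with a
map `star` sending pairs of eigenvalues to sets of eigenvalues. -/
structure FusionLaw (K : Type) [Field K] where
  carrier : Set K
  one_mem : (1 : K) ∈ carrier
  star : K → K → Set K
  star_sub : ∀ l ∈ carrier, ∀ m ∈ carrier, star l m ⊆ carrier

/-- The Seress property: `0` is an eigenvalue and `1 ⋆ l ⊆ {l}`, `0 ⋆ l ⊆ {l}` for all `l`. -/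
def FusionLaw.IsSeress {K : Type} [Field K] (F : FusionLaw K) : Prop :=
  (0 : K) ∈ F.carrier ∧ ∀ l ∈ F.carrier, F.star 1 l ⊆ {l} ∧ F.star 0 l ⊆ {l}

section

variable {K A : Type} [Field K] [NonUnitalNonAssocCommRing A] [Module K A]
  [IsScalarTower K A A] [SMulCommClass K A A]

/-- The eigenspace `A_l(a) = {v | a v = l v}`. -/
def eig (a : A) (l : K) : Submodule K A where
  carrier := {v | a * v = l • v}
  add_mem' {u v} hu hv := by
    show a * (u + v) = l • (u + v)
    rw [mul_add, smul_add, hu, hv]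
  zero_mem' := by
    show a * 0 = l • (0 : A)
    rw [mul_zero, smul_zero]
  smul_mem' c v hv := by
    show a * (c • v) = l • (c • v)
    rw [mul_smul_comm, hv, smul_comm]

theorem mem_eig {a : A} {l : K} {v : A} : v ∈ eig a l ↔ a * v = l • v := Iff.rfl

open scoped Classical in
/-- A primitive axis for the fusion law `F`: a nonzero idempotent `a` such that `A` is the direct
sum of the `A_l(a)`, `l ∈ F`, the products of eigenvectors obey the fusion law, and
`A_1(a) = K a`. -/
structure IsPrimitiveAxis (F : FusionLaw K) (a : A) : Prop where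
  ne_zero : a ≠ 0
  idem : a * a = a
  internal : DirectSum.IsInternal (fun l : F.carrier => eig (K := K) a (l : K))
  fusion : ∀ l ∈ F.carrier, ∀ m ∈ F.carrier, ∀ u ∈ eig a l, ∀ v ∈ eig a m,
    u * v ∈ ⨆ n ∈ F.star l m, eig (K := K) a n
  primitive : eig a (1 : K) = Submodule.span K {a}

/-- `(A, X)` is a primitive axial algebra for the fusion law `F`: `X` is a set of primitive axes
generating the algebra `A`. -/
structure IsPrimitiveAxial (F : FusionLaw K) (X : Set A) : Prop where
  axes : ∀ a ∈ X, IsPrimitiveAxis F a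
  gen : NonUnitalAlgebra.adjoin K X = ⊤

/-- The non-annihilation graph: distinct `a, b ∈ X` are joined when `a b ≠ 0`. -/
def nonAnn (X : Set A) : SimpleGraph X where
  Adj a b := a ≠ b ∧ (a : A) * (b : A) ≠ 0
  symm := ⟨fun a b h => ⟨h.1.symm, by rw [mul_comm]; exact h.2⟩⟩
  loopless := ⟨fun _ h => h.1 rfl⟩

variable (K A)

/-- `A` is indecomposable: `A ≠ 0` and `A` is not the direct sum of `k ≥ 2` nonzero ideals with
pairwise zero products. -/
def Indecomposable : Prop :=
  Nontrivial A ∧ ¬ ∃ (k : ℕ) (I : Fin k → Submodule K A), 2 ≤ k ∧ DirectSum.IsInternal I ∧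
    (∀ i, I i ≠ ⊥) ∧ (∀ i, ∀ a : A, ∀ u ∈ I i, a * u ∈ I i) ∧
    (∀ i j, i ≠ j → ∀ u ∈ I i, ∀ v ∈ I j, u * v = 0)

end

end V11196.Axial
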