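import Pool.Agent.V11196.Axial.Defs

/-!
# The nine-dimensional example
-/

set_option linter.unusedSectionVars false
set_option linter.unusedSimpArgs false

namespace V11196.Axial

section General

variable {K A : Type} [Field K] [NonUnitalNonAssocCommRing A] [Module K A]
  [IsScalarTower K A A] [SMulCommClass K A A]

/-- A primitive idempotent lies in one of the two summands. -/
theorem mem_or {I J : Submodule K A} (h : IsCompl I J)
    (hI : ∀ a : A, ∀ u ∈ I, a * u ∈ I) (hJ : ∀ a : A, ∀ u ∈ J, a * u ∈ J)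
    (hIJ : ∀ u ∈ I, ∀ v ∈ J, u * v = 0) {a : A} (haa : a * a = a)
    (hp : eig a (1 : K) = Submodule.span K {a}) : a ∈ I ∨ a ∈ J := by
  have ha : a ∈ I ⊔ J := by rw [h.sup_eq_top]; trivial
  obtain ⟨i, hi, j, hj, hij⟩ := Submodule.mem_sup.mp ha
  have h1 : a * i = i * i := by
    rw [← hij, add_mul, mul_comm j i, hIJ i hi j hj, add_zero]
  have h2 : a * j = j * j := by
    rw [← hij, add_mul, hIJ i hi j hj, zero_add]
  have h3 : i * i + j * j = i + j := by
    rw [← h1, ← h2, ← mul_add, hij, haa]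
  have h4 : i * i - i = j - j * j := by
    rw [sub_eq_sub_iff_add_eq_add, h3, add_comm]
  have h5 : i * i - i = 0 := by
    apply (Submodule.disjoint_def.mp h.disjoint) _ (I.sub_mem (hI i i hi) hi)
    rw [h4]
    exact J.sub_mem hj (hJ j j hj)
  have h6 : i ∈ eig a (1 : K) := by
    rw [mem_eig, h1, one_smul]
    exact sub_eq_zero.mp h5
  rw [hp, Submodule.mem_span_singleton] at h6
  obtain ⟨c, hc⟩ := h6
  by_cases hc0 : c = 0
  · right
    rw [hc0, zero_smul] at hc
    rw [← hij, ← hc, zero_add]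
    exact hj
  · left
    have : a = c⁻¹ • i := by rw [← hc, smul_smul, inv_mul_cancel₀ hc0, one_smul]
    rw [this]
    exact I.smul_mem _ hi

/-- Indecomposability from the two-summand case. -/
theorem indecomposable_of [Nontrivial A]
    (h : ∀ I J : Submodule K A, IsCompl I J → (∀ a : A, ∀ u ∈ I, a * u ∈ I) →
      (∀ a : A, ∀ u ∈ J, a * u ∈ J) → (∀ u ∈ I, ∀ v ∈ J, u * v = 0) → I = ⊥ ∨ J = ⊥) :
    Indecomposable K A := by
  refine ⟨inferInstance, ?_⟩
  rintro ⟨k, I, hk, hint, hne, hid, hz⟩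
  rw [DirectSum.isInternal_submodule_iff_iSupIndep_and_iSup_eq_top] at hint
  obtain ⟨hind, htop⟩ := hint
  let i0 : Fin k := ⟨0, by omega⟩
  let i1 : Fin k := ⟨1, by omega⟩
  have h01 : i1 ≠ i0 := by
    intro h
    have := congrArg Fin.val h
    simp [i0, i1] at this
  set J : Submodule K A := ⨆ (j : Fin k) (_ : j ≠ i0), I j with hJ
  have hle : ∀ j, j ≠ i0 → I j ≤ J := fun j hj => le_iSup₂_of_le j hj le_rfl
  have hcompl : IsCompl (I i0) J := by
    constructor
    · exact hind i0
    · rw [codisjoint_iff, eq_top_iff, ← htop]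
      refine iSup_le fun j => ?_
      by_cases hj : j = i0
      · rw [hj]; exact le_sup_left
      · exact (hle j hj).trans le_sup_right
  have hJid : ∀ a : A, ∀ u ∈ J, a * u ∈ J := by
    intro a
    have : J ≤ J.comap (LinearMap.mulLeft K a) := by
      rw [hJ]
      refine iSup₂_le fun j hj => ?_
      intro u hu
      exact hle j hj (hid j a u hu)
    exact fun u hu => this hu
  have hJz : ∀ u ∈ I i0, ∀ v ∈ J, u * v = 0 := by
    intro u hu
    have : J ≤ LinearMap.ker (LinearMap.mulLeft K u) := by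
      rw [hJ]
      refine iSup₂_le fun j hj => ?_
      intro v hv
      exact hz i0 j (Ne.symm hj) u hu v hv
    exact fun v hv => this hv
  rcases h (I i0) J hcompl (hid i0) hJid hJz with h' | h'
  · exact hne i0 h'
  · apply hne i1
    rw [eq_bot_iff, ← h']
    exact hle i1 h01

/-- An ideal containing generators is everything. -/
theorem eq_top_of_gen {I : Submodule K A} (hI : ∀ a : A, ∀ u ∈ I, a * u ∈ I) {X : Set A}
    (hX : X ⊆ I) (hgen : NonUnitalAlgebra.adjoin K X = ⊤) : I = ⊤ := by
  let S : NonUnitalSubalgebra K A :=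
    { I with
      mul_mem' := fun {a b} _ hb => hI a b hb }
  have hS : NonUnitalAlgebra.adjoin K X ≤ S := NonUnitalAlgebra.adjoin_le hX
  rw [eq_top_iff]
  intro a _
  have : a ∈ NonUnitalAlgebra.adjoin K X := by rw [hgen]; exact NonUnitalAlgebra.mem_top
  exact hS this

end General

/-- The underlying space of the example. -/
def Alg (K : Type) [Field K] (_ : K) : Type := Fin 9 → K

section Example

variable {K : Type} [Field K] {m : K}

instance : AddCommGroup (Alg K m) := inferInstanceAs (AddCommGroup (Fin 9 → K))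
instance : Module K (Alg K m) := inferInstanceAs (Module K (Fin 9 → K))

theorem add_app (a b : Alg K m) (i : Fin 9) : (a + b) i = a i + b i := rfl
theorem zero_app (i : Fin 9) : (0 : Alg K m) i = 0 := rfl
theorem smul_app (c : K) (a : Alg K m) (i : Fin 9) : (c • a) i = c * a i := rfl

/-- The product on the example, in the basis `x₁, x₂, d, z, x₁', x₂', d', z', w`. -/
def prod (u v : Fin 9 → K) : Fin 9 → K :=
  ![u 0 * v 0 + m ^ 2 * (u 1 * v 2 + u 2 * v 1),
    u 1 * v 1 + m ^ 2 * (u 0 * v 2 + u 2 * v 0),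
    u 0 * v 1 + u 1 * v 0,
    u 2 * v 2,
    u 4 * v 4 + m ^ 2 * (u 5 * v 6 + u 6 * v 5),
    u 5 * v 5 + m ^ 2 * (u 4 * v 6 + u 6 * v 4),
    u 4 * v 5 + u 5 * v 4,
    u 6 * v 6,
    u 3 * v 7 + u 7 * v 3]

instance : NonUnitalNonAssocCommRing (Alg K m) :=
  { (inferInstance : AddCommGroup (Alg K m)) with
    mul := fun u v => prod (m := m) u v
    left_distrib := by
      intro a b c
      show prod a (b + c) = prod a b + prod a c
      funext i
      fin_cases i <;> simp [prod, add_app] <;> ring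
    right_distrib := by
      intro a b c
      show prod (a + b) c = prod a c + prod b c
      funext i
      fin_cases i <;> simp [prod, add_app] <;> ring
    zero_mul := by
      intro a
      show prod 0 a = 0
      funext i
      fin_cases i <;> simp [prod]
    mul_zero := by
      intro a
      show prod a 0 = 0
      funext i
      fin_cases i <;> simp [prod]
    mul_comm := by
      intro a b
      show prod a b = prod b a
      funext i
      fin_cases i <;> simp [prod] <;> ring }

theorem mul_def (u v : Alg K m) : u * v = prod (m := m) u v := rfl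

instance : SMulCommClass K (Alg K m) (Alg K m) where
  smul_comm c a b := by
    show c • prod (m := m) a b = prod (m := m) a (c • b)
    funext i
    fin_cases i <;> simp [prod, smul_app] <;> ring

instance : IsScalarTower K (Alg K m) (Alg K m) where
  smul_assoc c a b := by
    show prod (m := m) (c • a) b = c • prod (m := m) a b
    funext i
    fin_cases i <;> simp [prod, smul_app] <;> ring

/-- Basis vectors. -/
def e (K : Type) [Field K] (m : K) (i : Fin 9) : Alg K m := fun j => if j = i then 1 else 0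

theorem app0 (u v : Alg K m) : (u * v) 0 = u 0 * v 0 + m ^ 2 * (u 1 * v 2 + u 2 * v 1) := rfl
theorem app1 (u v : Alg K m) : (u * v) 1 = u 1 * v 1 + m ^ 2 * (u 0 * v 2 + u 2 * v 0) := rfl
theorem app2 (u v : Alg K m) : (u * v) 2 = u 0 * v 1 + u 1 * v 0 := rfl
theorem app3 (u v : Alg K m) : (u * v) 3 = u 2 * v 2 := rfl
theorem app4 (u v : Alg K m) : (u * v) 4 = u 4 * v 4 + m ^ 2 * (u 5 * v 6 + u 6 * v 5) := rfl
theorem app5 (u v : Alg K m) : (u * v) 5 = u 5 * v 5 + m ^ 2 * (u 4 * v 6 + u 6 * v 4) := rfl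
theorem app6 (u v : Alg K m) : (u * v) 6 = u 4 * v 5 + u 5 * v 4 := rfl
theorem app7 (u v : Alg K m) : (u * v) 7 = u 6 * v 6 := rfl
theorem app8 (u v : Alg K m) : (u * v) 8 = u 3 * v 7 + u 7 * v 3 := rfl

theorem ext9 {u v : Alg K m} (h0 : u 0 = v 0) (h1 : u 1 = v 1) (h2 : u 2 = v 2) (h3 : u 3 = v 3)
    (h4 : u 4 = v 4) (h5 : u 5 = v 5) (h6 : u 6 = v 6) (h7 : u 7 = v 7) (h8 : u 8 = v 8) :
    u = v := by
  funext i
  fin_cases i <;> assumption

/-- The fusion law with eigenvalues `1, 0, m, -m`, the Seress restrictions, and no others. -/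
def law (K : Type) [Field K] (m : K) : FusionLaw K where
  carrier := {1, 0, m, -m}
  one_mem := by simp
  star a b := {c | (c = 1 ∨ c = 0 ∨ c = m ∨ c = -m) ∧ ((a = 0 ∨ a = 1) → c = b) ∧
    ((b = 0 ∨ b = 1) → c = a)}
  star_sub := by
    intro l _ n _ c hc
    exact hc.1

theorem law_seress : (law K m).IsSeress := by
  refine ⟨by simp [law], fun l _ => ⟨?_, ?_⟩⟩
  · intro c hc
    exact hc.2.1 (Or.inr rfl)
  · intro c hc
    exact hc.2.1 (Or.inl rfl)

theorem star_comm' (a b : K) : (law K m).star a b = (law K m).star b a := by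
  ext c
  show (_ ∧ _ ∧ _) ↔ (_ ∧ _ ∧ _)
  constructor
  · rintro ⟨h1, h2, h3⟩; exact ⟨h1, h3, h2⟩
  · rintro ⟨h1, h2, h3⟩; exact ⟨h1, h3, h2⟩

/-- The abstract criterion for being a primitive axis. -/
theorem axis_of (h2 : (2 : K) ≠ 0) (h0 : m ≠ 0) (h1 : m ≠ 1) (h1' : m ≠ -1) {A : Type}
    [NonUnitalNonAssocCommRing A] [Module K A] [IsScalarTower K A A] [SMulCommClass K A A]
    {a : A} (ha : a ≠ 0) (haa : a * a = a) (hp : ∀ v : A, a * v = v → ∃ c : K, v = c • a)
    (hpoly : ∀ v : A, a * (a * (a * (a * v))) =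
      a * (a * (a * v)) + m ^ 2 • (a * (a * v)) - m ^ 2 • (a * v))
    (h00 : ∀ u v : A, a * u = 0 → a * v = 0 → a * (u * v) = 0)
    (h0m : ∀ u v : A, ∀ c : K, c ≠ 0 → c ≠ 1 → a * u = 0 → a * v = c • v →
      a * (u * v) = c • (u * v)) :
    IsPrimitiveAxis (law K m) a := by
  have hm1 : m - 1 ≠ 0 := sub_ne_zero.mpr h1
  have hm1' : m + 1 ≠ 0 := fun h => h1' (eq_neg_of_add_eq_zero_left h)
  have hm2 : 1 - m ^ 2 ≠ 0 := by
    have : 1 - m ^ 2 = -((m - 1) * (m + 1)) := by ring
    rw [this]
    exact neg_ne_zero.mpr (mul_ne_zero hm1 hm1')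
  have hmm : m ≠ -m := by
    intro h
    have : 2 * m = 0 := by linear_combination h
    rcases mul_eq_zero.mp this with h' | h'
    · exact h2 h'
    · exact h0 h'
  have heig : ∀ l : K, eig a l = Module.End.eigenspace (LinearMap.mulLeft K a) l := by
    intro l
    ext v
    rw [Module.End.mem_eigenspace_iff]
    rfl
  have htop : ∀ v : A, ∃ v1 v0 vp vm : A, v = v1 + v0 + vp + vm ∧ a * v1 = (1 : K) • v1 ∧
      a * v0 = (0 : K) • v0 ∧ a * vp = m • vp ∧ a * vm = (-m) • vm := by
    intro v
    have hv := hpoly v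
    set v1 := a * v with hv1
    set v2 := a * v1 with hv2
    set v3 := a * v2 with hv3
    have key : ((1 - m ^ 2)⁻¹ • (v3 - m ^ 2 • v1) : A) +
        m • ((2 * m ^ 2 * (m - 1))⁻¹ • (v3 + (m - 1) • v2 - m • v1)) -
        m • ((-(2 * m ^ 2 * (m + 1)))⁻¹ • (v3 - (m + 1) • v2 + m • v1)) = v1 := by
      have e : (1 - m ^ 2) = -((m - 1) * (m + 1)) := by ring
      rw [e]
      match_scalars <;> field_simp <;> ring
    refine ⟨(1 - m ^ 2)⁻¹ • (v3 - m ^ 2 • v1),
      v - (1 - m ^ 2)⁻¹ • (v3 - m ^ 2 • v1) -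
        (2 * m ^ 2 * (m - 1))⁻¹ • (v3 + (m - 1) • v2 - m • v1) -
        (-(2 * m ^ 2 * (m + 1)))⁻¹ • (v3 - (m + 1) • v2 + m • v1),
      (2 * m ^ 2 * (m - 1))⁻¹ • (v3 + (m - 1) • v2 - m • v1),
      (-(2 * m ^ 2 * (m + 1)))⁻¹ • (v3 - (m + 1) • v2 + m • v1), ?_, ?_, ?_, ?_, ?_⟩
    · abel
    · rw [mul_smul_comm, mul_sub, mul_smul_comm, ← hv2, hv, one_smul]
      congr 1
      module
    · simp only [mul_sub, mul_add, mul_smul_comm, ← hv2, ← hv3, ← hv1, hv]
      rw [zero_smul]
      nth_rewrite 1 [← key]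
      module
    · simp only [mul_sub, mul_add, mul_smul_comm, ← hv2, ← hv3, hv]
      module
    · simp only [mul_sub, mul_add, mul_smul_comm, ← hv2, ← hv3, hv]
      module
  have htop' : ∀ S : Submodule K A, eig a (1 : K) ≤ S → eig a (0 : K) ≤ S → eig a m ≤ S →
      eig a (-m) ≤ S → S = ⊤ := by
    intro S s1 s0 sp sm
    rw [eq_top_iff]
    intro v _
    obtain ⟨v1, v0, vp, vm, hv, e1, e0, ep, em⟩ := htop v
    rw [hv]
    exact S.add_mem (S.add_mem (S.add_mem (s1 e1) (s0 e0)) (sp ep)) (sm em)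
  -- the one-sided fusion rules
  have hfus : ∀ l ∈ (law K m).carrier, (l = 0 ∨ l = 1) → ∀ n ∈ (law K m).carrier,
      ∀ u ∈ eig a l, ∀ v ∈ eig a n, u * v ∈ ⨆ x ∈ (law K m).star l n, eig (K := K) a x := by
    intro l hl hl01 n hn u hu v hv
    have hn' : n = 1 ∨ n = 0 ∨ n = m ∨ n = -m := hn
    have hle : ∀ x, x ∈ (law K m).star l n → eig a x ≤
        ⨆ x ∈ (law K m).star l n, eig (K := K) a x := fun x hx => le_iSup₂_of_le x hx le_rfl
    rcases hl01 with rfl | rfl
    · rw [mem_eig, zero_smul] at hu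
      by_cases hn1 : n = 1
      · subst hn1
        rw [mem_eig, one_smul] at hv
        obtain ⟨c, hc⟩ := hp v hv
        rw [hc, mul_smul_comm, mul_comm, hu, smul_zero]
        exact Submodule.zero_mem _
      · have hmem : n ∈ (law K m).star 0 n := by
          refine ⟨hn', fun _ => rfl, ?_⟩
          rintro (h | h)
          · exact h
          · exact absurd h hn1
        apply hle n hmem
        by_cases hn0 : n = 0
        · subst hn0
          rw [mem_eig, zero_smul] at hv ⊢
          exact h00 u v hu hv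
        · rw [mem_eig] at hv ⊢
          exact h0m u v n hn0 hn1 hu hv
    · rw [mem_eig, one_smul] at hu
      obtain ⟨c, hc⟩ := hp u hu
      rw [mem_eig] at hv
      have huv : u * v = (c * n) • v := by rw [hc, smul_mul_assoc, hv, smul_smul]
      by_cases hn0 : n = 0
      · rw [huv, hn0, mul_zero, zero_smul]
        exact Submodule.zero_mem _
      · have hmem : n ∈ (law K m).star 1 n := by
          refine ⟨hn', fun _ => rfl, ?_⟩
          rintro (h | h)
          · exact absurd h hn0
          · exact h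
        apply hle n hmem
        rw [huv]
        exact Submodule.smul_mem _ _ hv
  refine ⟨ha, haa, ?_, ?_, ?_⟩
  · classical
    rw [DirectSum.isInternal_submodule_iff_iSupIndep_and_iSup_eq_top]
    constructor
    · have := (Module.End.eigenspaces_iSupIndep (LinearMap.mulLeft K a)).comp
        (f := fun l : (law K m).carrier => (l : K)) Subtype.val_injective
      have e : (fun l : (law K m).carrier => eig (K := K) a (l : K)) =
          (Module.End.eigenspace (LinearMap.mulLeft K a)) ∘
            (fun l : (law K m).carrier => (l : K)) := by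
        funext l
        exact heig l
      rw [e]
      exact this
    · have hle : ∀ x (hx : x ∈ (law K m).carrier), eig a x ≤
        ⨆ x : (law K m).carrier, eig (K := K) a (x : K) :=
          fun x hx => le_iSup (fun x : (law K m).carrier => eig (K := K) a (x : K)) ⟨x, hx⟩
      exact htop' _ (hle 1 (Or.inl rfl)) (hle 0 (Or.inr (Or.inl rfl)))
        (hle m (Or.inr (Or.inr (Or.inl rfl)))) (hle (-m) (Or.inr (Or.inr (Or.inr rfl))))
  · intro l hl n hn u hu v hv
    by_cases hl01 : l = 0 ∨ l = 1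
    · exact hfus l hl hl01 n hn u hu v hv
    · by_cases hn01 : n = 0 ∨ n = 1
      · rw [mul_comm, star_comm']
        exact hfus n hn hn01 l hl v hv u hu
      · have hle : ∀ x, (x = 1 ∨ x = 0 ∨ x = m ∨ x = -m) → eig a x ≤
            ⨆ x ∈ (law K m).star l n, eig (K := K) a x := fun x hx =>
              le_iSup₂_of_le x ⟨hx, fun h => absurd h hl01, fun h => absurd h hn01⟩ le_rfl
        rw [htop' _ (hle 1 (Or.inl rfl)) (hle 0 (Or.inr (Or.inl rfl)))
          (hle m (Or.inr (Or.inr (Or.inl rfl)))) (hle (-m) (Or.inr (Or.inr (Or.inr rfl))))]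
        trivial
  · ext v
    rw [mem_eig, one_smul, Submodule.mem_span_singleton]
    constructor
    · intro h
      obtain ⟨c, hc⟩ := hp v h
      exact ⟨c, hc.symm⟩
    · rintro ⟨c, rfl⟩
      rw [mul_smul_comm, haa]

theorem sub_app (a b : Alg K m) (i : Fin 9) : (a - b) i = a i - b i := rfl

/-- Coordinates of `e_i`. -/
theorem e_app (i j : Fin 9) : e K m i j = if j = i then 1 else 0 := rfl

section
variable (u v : Alg K m)

theorem e0_mul : e K m 0 * u = (![u 0, m ^ 2 * u 2, u 1, 0, 0, 0, 0, 0, 0] : Fin 9 → K) := by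
  apply ext9 <;> simp [app0, app1, app2, app3, app4, app5, app6, app7, app8, e_app]
theorem e1_mul : e K m 1 * u = (![m ^ 2 * u 2, u 1, u 0, 0, 0, 0, 0, 0, 0] : Fin 9 → K) := by
  apply ext9 <;> simp [app0, app1, app2, app3, app4, app5, app6, app7, app8, e_app]
theorem e4_mul : e K m 4 * u = (![0, 0, 0, 0, u 4, m ^ 2 * u 6, u 5, 0, 0] : Fin 9 → K) := by
  apply ext9 <;> simp [app0, app1, app2, app3, app4, app5, app6, app7, app8, e_app]
theorem e5_mul : e K m 5 * u = (![0, 0, 0, 0, m ^ 2 * u 6, u 5, u 4, 0, 0] : Fin 9 → K) := by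
  apply ext9 <;> simp [app0, app1, app2, app3, app4, app5, app6, app7, app8, e_app]
end

theorem axis0 (h2 : (2 : K) ≠ 0) (h0 : m ≠ 0) (h1 : m ≠ 1) (h1' : m ≠ -1) :
    IsPrimitiveAxis (law K m) (e K m 0) := by
  apply axis_of h2 h0 h1 h1'
  · intro h
    have := congrFun h 0
    simp [e_app, zero_app] at this
  · rw [e0_mul]
    apply ext9 <;> simp [e_app]
  · intro v hv
    rw [e0_mul] at hv
    refine ⟨v 0, ?_⟩
    have q1 : m ^ 2 * v 2 = v 1 := congrFun hv 1
    have q2 : v 1 = v 2 := congrFun hv 2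
    have q3 : 0 = v 3 := congrFun hv 3
    have q4 : 0 = v 4 := congrFun hv 4
    have q5 : 0 = v 5 := congrFun hv 5
    have q6 : 0 = v 6 := congrFun hv 6
    have q7 : 0 = v 7 := congrFun hv 7
    have q8 : 0 = v 8 := congrFun hv 8
    have q9 : v 2 = 0 := by
      have : (m - 1) * (m + 1) * v 2 = 0 := by linear_combination q1 + q2
      rcases mul_eq_zero.mp this with h | h
      · rcases mul_eq_zero.mp h with h | h
        · exact absurd (sub_eq_zero.mp h) h1
        · exact absurd (eq_neg_of_add_eq_zero_left h) h1'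
      · exact h
    have q10 : v 1 = 0 := by rw [q2, q9]
    apply ext9 <;> simp [e_app, smul_app, q9, q10, ← q3, ← q4, ← q5, ← q6, ← q7, ← q8]
  · intro v
    apply ext9 <;> simp [smul_app, add_app, sub_app, app0, app1, app2, app3, app4, app5, app6, app7,
      app8, e_app]
  · intro u v hu hv
    rw [e0_mul] at hu hv ⊢
    have u0 : u 0 = 0 := congrFun hu 0
    have u1 : u 1 = 0 := congrFun hu 2
    have u2 : m ^ 2 * u 2 = 0 := congrFun hu 1
    have u2 : u 2 = 0 := (mul_eq_zero.mp u2).resolve_left (pow_ne_zero 2 h0)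
    apply ext9 <;> simp [app0, app1, app2, app4, app5, app6, u0, u1, u2, zero_app]
  · intro u v c hc0 hc1 hu hv
    rw [e0_mul] at hu hv
    have u0 : u 0 = 0 := congrFun hu 0
    have u1 : u 1 = 0 := congrFun hu 2
    have u2 : m ^ 2 * u 2 = 0 := congrFun hu 1
    have u2 : u 2 = 0 := (mul_eq_zero.mp u2).resolve_left (pow_ne_zero 2 h0)
    have v3 : v 3 = 0 := by
      have h : 0 = c * v 3 := congrFun hv 3
      exact (mul_eq_zero.mp h.symm).resolve_left hc0
    have v4 : v 4 = 0 := by
      have h : 0 = c * v 4 := congrFun hv 4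
      exact (mul_eq_zero.mp h.symm).resolve_left hc0
    have v5 : v 5 = 0 := by
      have h : 0 = c * v 5 := congrFun hv 5
      exact (mul_eq_zero.mp h.symm).resolve_left hc0
    have v6 : v 6 = 0 := by
      have h : 0 = c * v 6 := congrFun hv 6
      exact (mul_eq_zero.mp h.symm).resolve_left hc0
    have v7 : v 7 = 0 := by
      have h : 0 = c * v 7 := congrFun hv 7
      exact (mul_eq_zero.mp h.symm).resolve_left hc0
    have huv : u * v = 0 := by
      apply ext9 <;> simp [app0, app1, app2, app3, app4, app5, app6, app7, app8, u0, u1, u2,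
        v3, v4, v5, v6, v7, zero_app]
    rw [huv, mul_zero, smul_zero]

theorem axis1 (h2 : (2 : K) ≠ 0) (h0 : m ≠ 0) (h1 : m ≠ 1) (h1' : m ≠ -1) :
    IsPrimitiveAxis (law K m) (e K m 1) := by
  apply axis_of h2 h0 h1 h1'
  · intro h
    have := congrFun h 1
    simp [e_app, zero_app] at this
  · rw [e1_mul]
    apply ext9 <;> simp [e_app]
  · intro v hv
    rw [e1_mul] at hv
    refine ⟨v 1, ?_⟩
    have q1 : m ^ 2 * v 2 = v 0 := congrFun hv 0
    have q2 : v 0 = v 2 := congrFun hv 2
    have q3 : 0 = v 3 := congrFun hv 3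
    have q4 : 0 = v 4 := congrFun hv 4
    have q5 : 0 = v 5 := congrFun hv 5
    have q6 : 0 = v 6 := congrFun hv 6
    have q7 : 0 = v 7 := congrFun hv 7
    have q8 : 0 = v 8 := congrFun hv 8
    have q9 : v 2 = 0 := by
      have : (m - 1) * (m + 1) * v 2 = 0 := by linear_combination q1 + q2
      rcases mul_eq_zero.mp this with h | h
      · rcases mul_eq_zero.mp h with h | h
        · exact absurd (sub_eq_zero.mp h) h1
        · exact absurd (eq_neg_of_add_eq_zero_left h) h1'
      · exact h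
    have q10 : v 0 = 0 := by rw [q2, q9]
    apply ext9 <;> simp [e_app, smul_app, q9, q10, ← q3, ← q4, ← q5, ← q6, ← q7, ← q8]
  · intro v
    apply ext9 <;> simp [smul_app, add_app, sub_app, app0, app1, app2, app3, app4, app5, app6, app7,
      app8, e_app]
  · intro u v hu hv
    rw [e1_mul] at hu hv ⊢
    have u0 : u 1 = 0 := congrFun hu 1
    have u1 : u 0 = 0 := congrFun hu 2
    have u2 : m ^ 2 * u 2 = 0 := congrFun hu 0
    have u2 : u 2 = 0 := (mul_eq_zero.mp u2).resolve_left (pow_ne_zero 2 h0)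
    apply ext9 <;> simp [app0, app1, app2, app4, app5, app6, u0, u1, u2, zero_app]
  · intro u v c hc0 hc1 hu hv
    rw [e1_mul] at hu hv
    have u0 : u 1 = 0 := congrFun hu 1
    have u1 : u 0 = 0 := congrFun hu 2
    have u2 : m ^ 2 * u 2 = 0 := congrFun hu 0
    have u2 : u 2 = 0 := (mul_eq_zero.mp u2).resolve_left (pow_ne_zero 2 h0)
    have v3 : v 3 = 0 := by
      have h : 0 = c * v 3 := congrFun hv 3
      exact (mul_eq_zero.mp h.symm).resolve_left hc0
    have v4 : v 4 = 0 := by
      have h : 0 = c * v 4 := congrFun hv 4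
      exact (mul_eq_zero.mp h.symm).resolve_left hc0
    have v5 : v 5 = 0 := by
      have h : 0 = c * v 5 := congrFun hv 5
      exact (mul_eq_zero.mp h.symm).resolve_left hc0
    have v6 : v 6 = 0 := by
      have h : 0 = c * v 6 := congrFun hv 6
      exact (mul_eq_zero.mp h.symm).resolve_left hc0
    have v7 : v 7 = 0 := by
      have h : 0 = c * v 7 := congrFun hv 7
      exact (mul_eq_zero.mp h.symm).resolve_left hc0
    have huv : u * v = 0 := by
      apply ext9 <;> simp [app0, app1, app2, app3, app4, app5, app6, app7, app8, u0, u1, u2,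
        v3, v4, v5, v6, v7, zero_app]
    rw [huv, mul_zero, smul_zero]

theorem axis4 (h2 : (2 : K) ≠ 0) (h0 : m ≠ 0) (h1 : m ≠ 1) (h1' : m ≠ -1) :
    IsPrimitiveAxis (law K m) (e K m 4) := by
  apply axis_of h2 h0 h1 h1'
  · intro h
    have := congrFun h 4
    simp [e_app, zero_app] at this
  · rw [e4_mul]
    apply ext9 <;> simp [e_app]
  · intro v hv
    rw [e4_mul] at hv
    refine ⟨v 4, ?_⟩
    have q1 : m ^ 2 * v 6 = v 5 := congrFun hv 5
    have q2 : v 5 = v 6 := congrFun hv 6
    have q3 : 0 = v 7 := congrFun hv 7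
    have q4 : 0 = v 0 := congrFun hv 0
    have q5 : 0 = v 1 := congrFun hv 1
    have q6 : 0 = v 2 := congrFun hv 2
    have q7 : 0 = v 3 := congrFun hv 3
    have q8 : 0 = v 8 := congrFun hv 8
    have q9 : v 6 = 0 := by
      have : (m - 1) * (m + 1) * v 6 = 0 := by linear_combination q1 + q2
      rcases mul_eq_zero.mp this with h | h
      · rcases mul_eq_zero.mp h with h | h
        · exact absurd (sub_eq_zero.mp h) h1
        · exact absurd (eq_neg_of_add_eq_zero_left h) h1'
      · exact h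
    have q10 : v 5 = 0 := by rw [q2, q9]
    apply ext9 <;> simp [e_app, smul_app, q9, q10, ← q3, ← q4, ← q5, ← q6, ← q7, ← q8]
  · intro v
    apply ext9 <;> simp [smul_app, add_app, sub_app, app0, app1, app2, app3, app4, app5, app6, app7,
      app8, e_app]
  · intro u v hu hv
    rw [e4_mul] at hu hv ⊢
    have u0 : u 4 = 0 := congrFun hu 4
    have u1 : u 5 = 0 := congrFun hu 6
    have u2 : m ^ 2 * u 6 = 0 := congrFun hu 5
    have u2 : u 6 = 0 := (mul_eq_zero.mp u2).resolve_left (pow_ne_zero 2 h0)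
    apply ext9 <;> simp [app0, app1, app2, app4, app5, app6, u0, u1, u2, zero_app]
  · intro u v c hc0 hc1 hu hv
    rw [e4_mul] at hu hv
    have u0 : u 4 = 0 := congrFun hu 4
    have u1 : u 5 = 0 := congrFun hu 6
    have u2 : m ^ 2 * u 6 = 0 := congrFun hu 5
    have u2 : u 6 = 0 := (mul_eq_zero.mp u2).resolve_left (pow_ne_zero 2 h0)
    have v3 : v 7 = 0 := by
      have h : 0 = c * v 7 := congrFun hv 7
      exact (mul_eq_zero.mp h.symm).resolve_left hc0
    have v4 : v 0 = 0 := by
      have h : 0 = c * v 0 := congrFun hv 0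
      exact (mul_eq_zero.mp h.symm).resolve_left hc0
    have v5 : v 1 = 0 := by
      have h : 0 = c * v 1 := congrFun hv 1
      exact (mul_eq_zero.mp h.symm).resolve_left hc0
    have v6 : v 2 = 0 := by
      have h : 0 = c * v 2 := congrFun hv 2
      exact (mul_eq_zero.mp h.symm).resolve_left hc0
    have v7 : v 3 = 0 := by
      have h : 0 = c * v 3 := congrFun hv 3
      exact (mul_eq_zero.mp h.symm).resolve_left hc0
    have huv : u * v = 0 := by
      apply ext9 <;> simp [app0, app1, app2, app3, app4, app5, app6, app7, app8, u0, u1, u2,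
        v3, v4, v5, v6, v7, zero_app]
    rw [huv, mul_zero, smul_zero]

theorem axis5 (h2 : (2 : K) ≠ 0) (h0 : m ≠ 0) (h1 : m ≠ 1) (h1' : m ≠ -1) :
    IsPrimitiveAxis (law K m) (e K m 5) := by
  apply axis_of h2 h0 h1 h1'
  · intro h
    have := congrFun h 5
    simp [e_app, zero_app] at this
  · rw [e5_mul]
    apply ext9 <;> simp [e_app]
  · intro v hv
    rw [e5_mul] at hv
    refine ⟨v 5, ?_⟩
    have q1 : m ^ 2 * v 6 = v 4 := congrFun hv 4
    have q2 : v 4 = v 6 := congrFun hv 6
    have q3 : 0 = v 7 := congrFun hv 7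
    have q4 : 0 = v 0 := congrFun hv 0
    have q5 : 0 = v 1 := congrFun hv 1
    have q6 : 0 = v 2 := congrFun hv 2
    have q7 : 0 = v 3 := congrFun hv 3
    have q8 : 0 = v 8 := congrFun hv 8
    have q9 : v 6 = 0 := by
      have : (m - 1) * (m + 1) * v 6 = 0 := by linear_combination q1 + q2
      rcases mul_eq_zero.mp this with h | h
      · rcases mul_eq_zero.mp h with h | h
        · exact absurd (sub_eq_zero.mp h) h1
        · exact absurd (eq_neg_of_add_eq_zero_left h) h1'
      · exact h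
    have q10 : v 4 = 0 := by rw [q2, q9]
    apply ext9 <;> simp [e_app, smul_app, q9, q10, ← q3, ← q4, ← q5, ← q6, ← q7, ← q8]
  · intro v
    apply ext9 <;> simp [smul_app, add_app, sub_app, app0, app1, app2, app3, app4, app5, app6, app7,
      app8, e_app]
  · intro u v hu hv
    rw [e5_mul] at hu hv ⊢
    have u0 : u 5 = 0 := congrFun hu 5
    have u1 : u 4 = 0 := congrFun hu 6
    have u2 : m ^ 2 * u 6 = 0 := congrFun hu 4
    have u2 : u 6 = 0 := (mul_eq_zero.mp u2).resolve_left (pow_ne_zero 2 h0)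
    apply ext9 <;> simp [app0, app1, app2, app4, app5, app6, u0, u1, u2, zero_app]
  · intro u v c hc0 hc1 hu hv
    rw [e5_mul] at hu hv
    have u0 : u 5 = 0 := congrFun hu 5
    have u1 : u 4 = 0 := congrFun hu 6
    have u2 : m ^ 2 * u 6 = 0 := congrFun hu 4
    have u2 : u 6 = 0 := (mul_eq_zero.mp u2).resolve_left (pow_ne_zero 2 h0)
    have v3 : v 7 = 0 := by
      have h : 0 = c * v 7 := congrFun hv 7
      exact (mul_eq_zero.mp h.symm).resolve_left hc0
    have v4 : v 0 = 0 := by
      have h : 0 = c * v 0 := congrFun hv 0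
      exact (mul_eq_zero.mp h.symm).resolve_left hc0
    have v5 : v 1 = 0 := by
      have h : 0 = c * v 1 := congrFun hv 1
      exact (mul_eq_zero.mp h.symm).resolve_left hc0
    have v6 : v 2 = 0 := by
      have h : 0 = c * v 2 := congrFun hv 2
      exact (mul_eq_zero.mp h.symm).resolve_left hc0
    have v7 : v 3 = 0 := by
      have h : 0 = c * v 3 := congrFun hv 3
      exact (mul_eq_zero.mp h.symm).resolve_left hc0
    have huv : u * v = 0 := by
      apply ext9 <;> simp [app0, app1, app2, app3, app4, app5, app6, app7, app8, u0, u1, u2,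
        v3, v4, v5, v6, v7, zero_app]
    rw [huv, mul_zero, smul_zero]

/-- The four axes. -/
def XX (K : Type) [Field K] (m : K) : Set (Alg K m) := {e K m 0, e K m 1, e K m 4, e K m 5}

theorem mul01 : e K m 0 * e K m 1 = e K m 2 := by
  apply ext9 <;> simp [app0, app1, app2, app3, app4, app5, app6, app7, app8, e_app]
theorem mul22 : e K m 2 * e K m 2 = e K m 3 := by
  apply ext9 <;> simp [app0, app1, app2, app3, app4, app5, app6, app7, app8, e_app]
theorem mul45 : e K m 4 * e K m 5 = e K m 6 := by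
  apply ext9 <;> simp [app0, app1, app2, app3, app4, app5, app6, app7, app8, e_app]
theorem mul66 : e K m 6 * e K m 6 = e K m 7 := by
  apply ext9 <;> simp [app0, app1, app2, app3, app4, app5, app6, app7, app8, e_app]
theorem mul37 : e K m 3 * e K m 7 = e K m 8 := by
  apply ext9 <;> simp [app0, app1, app2, app3, app4, app5, app6, app7, app8, e_app]
theorem mul04 : e K m 0 * e K m 4 = 0 := by
  apply ext9 <;> simp [app0, app1, app2, app3, app4, app5, app6, app7, app8, e_app, zero_app]
theorem mul05 : e K m 0 * e K m 5 = 0 := by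
  apply ext9 <;> simp [app0, app1, app2, app3, app4, app5, app6, app7, app8, e_app, zero_app]
theorem mul14 : e K m 1 * e K m 4 = 0 := by
  apply ext9 <;> simp [app0, app1, app2, app3, app4, app5, app6, app7, app8, e_app, zero_app]
theorem mul15 : e K m 1 * e K m 5 = 0 := by
  apply ext9 <;> simp [app0, app1, app2, app3, app4, app5, app6, app7, app8, e_app, zero_app]

theorem e_ne_zero (i : Fin 9) : e K m i ≠ 0 := by
  intro h
  have := congrFun h i
  rw [e_app, if_pos rfl, zero_app] at this
  exact one_ne_zero this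

theorem e_ne {i j : Fin 9} (hij : i ≠ j) : e K m i ≠ e K m j := by
  intro h
  have := congrFun h i
  rw [e_app, e_app, if_pos rfl, if_neg hij] at this
  exact one_ne_zero this

theorem eq_sum (v : Alg K m) : v = v 0 • e K m 0 + v 1 • e K m 1 + v 2 • e K m 2 + v 3 • e K m 3 +
    v 4 • e K m 4 + v 5 • e K m 5 + v 6 • e K m 6 + v 7 • e K m 7 + v 8 • e K m 8 := by
  apply ext9 <;> simp [add_app, smul_app, e_app]

theorem gen_XX : NonUnitalAlgebra.adjoin K (XX K m) = ⊤ := by
  rw [eq_top_iff]
  intro v _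
  have h0 : e K m 0 ∈ NonUnitalAlgebra.adjoin K (XX K m) :=
    NonUnitalAlgebra.subset_adjoin K (Or.inl rfl)
  have h1 : e K m 1 ∈ NonUnitalAlgebra.adjoin K (XX K m) :=
    NonUnitalAlgebra.subset_adjoin K (Or.inr (Or.inl rfl))
  have h4 : e K m 4 ∈ NonUnitalAlgebra.adjoin K (XX K m) :=
    NonUnitalAlgebra.subset_adjoin K (Or.inr (Or.inr (Or.inl rfl)))
  have h5 : e K m 5 ∈ NonUnitalAlgebra.adjoin K (XX K m) :=
    NonUnitalAlgebra.subset_adjoin K (Or.inr (Or.inr (Or.inr rfl)))
  have h2 : e K m 2 ∈ NonUnitalAlgebra.adjoin K (XX K m) := by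
    rw [← mul01]; exact mul_mem h0 h1
  have h3 : e K m 3 ∈ NonUnitalAlgebra.adjoin K (XX K m) := by
    rw [← mul22]; exact mul_mem h2 h2
  have h6 : e K m 6 ∈ NonUnitalAlgebra.adjoin K (XX K m) := by
    rw [← mul45]; exact mul_mem h4 h5
  have h7 : e K m 7 ∈ NonUnitalAlgebra.adjoin K (XX K m) := by
    rw [← mul66]; exact mul_mem h6 h6
  have h8 : e K m 8 ∈ NonUnitalAlgebra.adjoin K (XX K m) := by
    rw [← mul37]; exact mul_mem h3 h7
  rw [eq_sum v]
  exact add_mem (add_mem (add_mem (add_mem (add_mem (add_mem (add_mem (add_mem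
    (SMulMemClass.smul_mem _ h0) (SMulMemClass.smul_mem _ h1)) (SMulMemClass.smul_mem _ h2))
    (SMulMemClass.smul_mem _ h3)) (SMulMemClass.smul_mem _ h4)) (SMulMemClass.smul_mem _ h5))
    (SMulMemClass.smul_mem _ h6)) (SMulMemClass.smul_mem _ h7)) (SMulMemClass.smul_mem _ h8)

theorem axial (h2 : (2 : K) ≠ 0) (h0 : m ≠ 0) (h1 : m ≠ 1) (h1' : m ≠ -1) :
    IsPrimitiveAxial (law K m) (XX K m) := by
  refine ⟨?_, gen_XX⟩
  rintro a (rfl | rfl | rfl | rfl)
  · exact axis0 h2 h0 h1 h1'
  · exact axis1 h2 h0 h1 h1'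
  · exact axis4 h2 h0 h1 h1'
  · exact axis5 h2 h0 h1 h1'

theorem half (h2 : (2 : K) ≠ 0) (h0 : m ≠ 0) (h1 : m ≠ 1) (h1' : m ≠ -1)
    {I J : Submodule K (Alg K m)} (h : IsCompl I J)
    (hI : ∀ a : Alg K m, ∀ u ∈ I, a * u ∈ I) (hJ : ∀ a : Alg K m, ∀ u ∈ J, a * u ∈ J)
    (hIJ : ∀ u ∈ I, ∀ v ∈ J, u * v = 0) (h0I : e K m 0 ∈ I) : J = ⊥ := by
  have hax := (axial h2 h0 h1 h1').axes
  have hor : ∀ a ∈ XX K m, a ∈ I ∨ a ∈ J := fun a ha =>
    mem_or h hI hJ hIJ (hax a ha).idem (hax a ha).primitive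
  have h1I : e K m 1 ∈ I := by
    rcases hor (e K m 1) (Or.inr (Or.inl rfl)) with h' | h'
    · exact h'
    · exact absurd (by rw [← mul01]; exact hIJ _ h0I _ h') (e_ne_zero (K := K) (m := m) 2)
  have h2I : e K m 2 ∈ I := by rw [← mul01]; exact hI _ _ h1I
  have h3I : e K m 3 ∈ I := by rw [← mul22]; exact hI _ _ h2I
  have h4I : e K m 4 ∈ I := by
    rcases hor (e K m 4) (Or.inr (Or.inr (Or.inl rfl))) with h' | h'
    · exact h'
    · exfalso
      have h5J : e K m 5 ∈ J := by
        rcases hor (e K m 5) (Or.inr (Or.inr (Or.inr rfl))) with h'' | h''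
        · exact absurd (by rw [← mul45, mul_comm]; exact hIJ _ h'' _ h')
            (e_ne_zero (K := K) (m := m) 6)
        · exact h''
      have h6J : e K m 6 ∈ J := by rw [← mul45]; exact hJ _ _ h5J
      have h7J : e K m 7 ∈ J := by rw [← mul66]; exact hJ _ _ h6J
      exact absurd (by rw [← mul37]; exact hIJ _ h3I _ h7J) (e_ne_zero (K := K) (m := m) 8)
  have h5I : e K m 5 ∈ I := by
    rcases hor (e K m 5) (Or.inr (Or.inr (Or.inr rfl))) with h' | h'
    · exact h'
    · exact absurd (by rw [← mul45]; exact hIJ _ h4I _ h') (e_ne_zero (K := K) (m := m) 6)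
  have hXI : XX K m ⊆ I := by
    rintro a (rfl | rfl | rfl | rfl)
    · exact h0I
    · exact h1I
    · exact h4I
    · exact h5I
  have htop : I = ⊤ := eq_top_of_gen hI hXI gen_XX
  have := h.disjoint
  rw [htop] at this
  exact top_disjoint.mp this

instance : Nontrivial (Alg K m) := ⟨⟨e K m 0, 0, e_ne_zero 0⟩⟩

theorem indec (h2 : (2 : K) ≠ 0) (h0 : m ≠ 0) (h1 : m ≠ 1) (h1' : m ≠ -1) :
    Indecomposable K (Alg K m) := by
  apply indecomposable_of
  intro I J h hI hJ hIJ
  have hax := (axial h2 h0 h1 h1').axes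
  have h0X : e K m 0 ∈ XX K m := Or.inl rfl
  rcases mem_or h hI hJ hIJ (hax _ h0X).idem (hax _ h0X).primitive with h' | h'
  · right
    exact half h2 h0 h1 h1' h hI hJ hIJ h'
  · left
    exact half h2 h0 h1 h1' h.symm hJ hI (fun u hu v hv => by rw [mul_comm]; exact hIJ v hv u hu) h'

theorem not_conn : ¬ (nonAnn (XX K m)).Preconnected := by
  intro h
  have h0X : e K m 0 ∈ XX K m := Or.inl rfl
  have h4X : e K m 4 ∈ XX K m := Or.inr (Or.inr (Or.inl rfl))
  have hstep : ∀ a b : XX K m, (nonAnn (XX K m)).Adj a b →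
      ((a : Alg K m) = e K m 0 ∨ (a : Alg K m) = e K m 1) →
      ((b : Alg K m) = e K m 0 ∨ (b : Alg K m) = e K m 1) := by
    rintro ⟨a, ha⟩ ⟨b, hb⟩ ⟨_, hab⟩ ha'
    rcases hb with hb | hb | hb | hb
    · exact Or.inl hb
    · exact Or.inr hb
    · exfalso
      have hb' : b = e K m 4 := hb
      apply hab
      show a * b = 0
      rcases ha' with ha' | ha'
      · have ha'' : a = e K m 0 := ha'
        rw [ha'', hb', mul04]
      · have ha'' : a = e K m 1 := ha'
        rw [ha'', hb', mul14]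
    · exfalso
      have hb' : b = e K m 5 := hb
      apply hab
      show a * b = 0
      rcases ha' with ha' | ha'
      · have ha'' : a = e K m 0 := ha'
        rw [ha'', hb', mul05]
      · have ha'' : a = e K m 1 := ha'
        rw [ha'', hb', mul15]
  have hwalk : ∀ a b : XX K m, (nonAnn (XX K m)).Walk a b →
      ((a : Alg K m) = e K m 0 ∨ (a : Alg K m) = e K m 1) →
      ((b : Alg K m) = e K m 0 ∨ (b : Alg K m) = e K m 1) := by
    intro a b w
    induction w with
    | nil => exact id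
    | cons hadj _ ih => exact fun hu => ih (hstep _ _ hadj hu)
  obtain ⟨w⟩ := h ⟨e K m 0, h0X⟩ ⟨e K m 4, h4X⟩
  rcases hwalk _ _ w (Or.inl rfl) with h' | h'
  · exact e_ne (K := K) (m := m) (i := 4) (j := 0) (by decide) h'
  · exact e_ne (K := K) (m := m) (i := 4) (j := 1) (by decide) h'

/-- The Frobenius form. -/
def form (K : Type) [Field K] (m : K) : Alg K m →ₗ[K] Alg K m →ₗ[K] K :=
  LinearMap.mk₂ K (fun u v => u 0 * v 0 + u 1 * v 1 + m ^ 2 * (u 2 * v 2) +
    (u 4 * v 4 + u 5 * v 5 + m ^ 2 * (u 6 * v 6)))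
    (by intro a b c; simp only [add_app]; ring)
    (by intro a b c; simp only [smul_app, smul_eq_mul]; ring)
    (by intro a b c; simp only [add_app]; ring)
    (by intro a b c; simp only [smul_app, smul_eq_mul]; ring)

theorem form_assoc (a b c : Alg K m) : form K m (a * b) c = form K m a (b * c) := by
  simp only [form, LinearMap.mk₂_apply, app0, app1, app2, app4, app5, app6]
  ring

theorem form_symm (a b : Alg K m) : form K m a b = form K m b a := by
  simp only [form, LinearMap.mk₂_apply]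
  ring

theorem form_axis (a : Alg K m) (ha : a ∈ XX K m) : form K m a a = 1 := by
  rcases ha with rfl | rfl | rfl | rfl <;> simp [form, LinearMap.mk₂_apply, e_app]

end Example

end V11196.Axial
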